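import Pool.Agent.Lib.MP_10e961_gt_own.Strata

set_option autoImplicit false

namespace Pool.Agent.MP_10e961_gt_own

universe u

open Set Topology Filter
open scoped BoundedContinuousFunction

/-- Bounded continuous functions as elements of `C_p(Y)`. -/
def toCp {Y : Type u} [TopologicalSpace Y] (f : Y →ᵇ ℝ) : Cp Y := ⟨f, f.continuous⟩

lemma continuous_toCp {Y : Type u} [TopologicalSpace Y] :
    Continuous (toCp : (Y →ᵇ ℝ) → Cp Y) := by
  refine Continuous.subtype_mk (continuous_pi fun y => ?_) _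
  exact (BoundedContinuousFunction.lipschitz_eval_const y).continuous

/-- **Baire category step.** -/
lemma baire_step {M Y : Type u} [TopologicalSpace M] [T35Space M] [TopologicalSpace Y]
    {T : Cp M → Cp Y → ℝ} (hTc : ∀ f, Continuous (T f)) (hT : ∀ y, Continuous fun f => T f y)
    (z : Cp M) (hz : ∀ q, z.1 q = 0) (hTz : ∀ y, T z y = 0) :
    ∃ (c : ℝ) (k : ℕ) (y₀ : Y →ᵇ ℝ) (ε : ℝ), 0 < c ∧ 0 < ε ∧
      (∀ F : Finset M, Supp T c F (toCp y₀) → k ≤ F.card) ∧
      ∀ y : Y →ᵇ ℝ, dist y y₀ ≤ ε → ∃ F : Finset M, F.card ≤ k ∧ Supp T c F (toCp y) := by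
  classical
  let cc : ℕ → ℝ := fun n => 1 / ((n : ℝ) + 1)
  have hcc : ∀ n, 0 < cc n := fun n => Nat.one_div_pos_of_nat
  let S : ℕ → ℕ → Set (Y →ᵇ ℝ) := fun n k =>
    {y | ∃ F : Finset M, F.card ≤ k ∧ Supp T (cc n) F (toCp y)}
  have hS : ∀ n k, IsClosed (S n k) := fun n k =>
    (isClosed_strat hTc hT (hcc n) k).preimage continuous_toCp
  have hU : ⋃ n, S n n = univ := by
    rw [Set.eq_univ_iff_forall]
    intro y
    have hopen : IsOpen {f : Cp M | |T f (toCp y)| < 1} :=
      isOpen_lt (hT (toCp y)).abs continuous_const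
    obtain ⟨I, δ, hδ, hI⟩ := cp_nbhd hopen (u := z) (by
      show |T z (toCp y)| < 1
      rw [hTz, abs_zero]; exact one_pos)
    obtain ⟨n, hn⟩ := exists_nat_one_div_lt hδ
    refine Set.mem_iUnion.mpr ⟨max n I.card, I, le_max_right _ _, fun f hf => ?_⟩
    have : |T f (toCp y)| < 1 := by
      apply hI f
      intro x hx
      rw [hz, sub_zero]
      have h1 : cc (max n I.card) ≤ 1 / ((n : ℝ) + 1) := by
        apply one_div_le_one_div_of_le (by positivity)
        have : (n : ℝ) ≤ (max n I.card : ℕ) := by exact_mod_cast le_max_left _ _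
        linarith
      exact ((hf x hx).trans_le h1).trans hn
    exact this.le
  obtain ⟨n, hn⟩ := nonempty_interior_of_iUnion_of_closed (fun n => hS n n) hU
  have hex : ∃ k, (interior (S n k)).Nonempty := ⟨n, hn⟩
  let k := Nat.find hex
  have hk : (interior (S n k)).Nonempty := Nat.find_spec hex
  obtain ⟨y₀, hy₀, hmin⟩ : ∃ y₀ ∈ interior (S n k),
      ∀ F : Finset M, Supp T (cc n) F (toCp y₀) → k ≤ F.card := by
    rcases Nat.eq_zero_or_pos k with h0 | hpos
    · obtain ⟨y₀, hy₀⟩ := hk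
      exact ⟨y₀, hy₀, fun F _ => by rw [h0]; exact Nat.zero_le _⟩
    · have hlt : k - 1 < k := Nat.sub_lt hpos one_pos
      have hempty : ¬ (interior (S n (k - 1))).Nonempty := Nat.find_min hex hlt
      have hne : (interior (S n k) ∩ (S n (k - 1))ᶜ).Nonempty := by
        by_contra hcon
        have hsub : interior (S n k) ⊆ S n (k - 1) := by
          intro y hy
          by_contra hy'
          exact hcon ⟨y, hy, hy'⟩
        exact hempty (hk.mono (interior_maximal hsub isOpen_interior))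
      obtain ⟨y₀, h1, h2⟩ := hne
      refine ⟨y₀, h1, fun F hF => ?_⟩
      by_contra hlt'
      exact h2 ⟨F, by omega, hF⟩
  obtain ⟨ε, hε, hball⟩ := Metric.nhds_basis_closedBall.mem_iff.mp
    (isOpen_interior.mem_nhds hy₀)
  refine ⟨cc n, k, y₀, ε, hcc n, hε, hmin, fun y hy => ?_⟩
  have h1 : y ∈ S n k := interior_subset (hball (Metric.mem_closedBall.mpr hy))
  exact h1

end Pool.Agent.MP_10e961_gt_own
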