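import Pool.Agent.Lib.MP_10e961_gt_own.Baire

set_option autoImplicit false

namespace Pool.Agent.MP_10e961_gt_own

universe u

open Set Topology Filter Cardinal
open scoped BoundedContinuousFunction

section Card

variable {κ : Cardinal.{u}}

lemma card_iUnion_le (hκ : ℵ₀ ≤ κ) {ι α : Type u} (f : ι → Set α) (hι : #ι ≤ κ)
    (hf : ∀ i, #(f i) ≤ κ) : #(⋃ i, f i) ≤ κ := by
  refine (mk_iUnion_le f).trans ?_
  refine (mul_le_mul' hι (ciSup_le' hf)).trans ?_
  exact (mul_eq_self hκ).le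

lemma card_finset_le (hκ : ℵ₀ ≤ κ) {α : Type u} (hα : #α ≤ κ) : #(Finset α) ≤ κ := by
  rcases finite_or_infinite α with h | h
  · exact (mk_le_aleph0 (α := Finset α)).trans hκ
  · rw [mk_finset_of_infinite]; exact hα

lemma card_prod_rat_le (hκ : ℵ₀ ≤ κ) {α : Type u} (hα : #α ≤ κ) : #(α × ℚ × ℚ) ≤ κ := by
  have h1 : lift.{u} #(ℚ × ℚ) ≤ κ := by
    refine le_trans ?_ hκ
    rw [lift_le_aleph0]
    exact mk_le_aleph0
  have h2 : #(α × ℚ × ℚ) = #α * lift.{u} #(ℚ × ℚ) := by
    rw [Cardinal.mk_prod, Cardinal.lift_uzero]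
  rw [h2]
  exact (mul_le_mul' hα h1).trans (mul_eq_self hκ).le

end Card

section Windows

variable {X : Type u} [TopologicalSpace X]

/-- Basic open sets determined by finitely many coordinates in `F` and rational intervals. -/
def Win (F : Set X) (s : Finset (F × ℚ × ℚ)) : Set (Cp X) :=
  {q | ∀ e ∈ s, (e.2.1 : ℝ) < q.1 e.1 ∧ q.1 e.1 < (e.2.2 : ℝ)}

lemma isOpen_win (F : Set X) (s : Finset (F × ℚ × ℚ)) : IsOpen (Win F s) := by
  have : Win F s = ⋂ e ∈ s, {q : Cp X | (e.2.1 : ℝ) < q.1 e.1 ∧ q.1 e.1 < (e.2.2 : ℝ)} := by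
    ext q
    simp [Win]
  rw [this]
  refine isOpen_biInter_finset fun e _ => ?_
  have hc : Continuous fun q : Cp X => q.1 e.1 :=
    (continuous_apply (e.1 : X)).comp continuous_subtype_val
  exact (isOpen_lt continuous_const hc).inter (isOpen_lt hc continuous_const)

/-- An open set which depends only on the coordinates in a closed set `F` is a union of windows. -/
lemma exists_win [T35Space X] {F : Set X} (hF : IsClosed F) {O : Set (Cp X)} (hO : IsOpen O)
    (hsat : ∀ q q' : Cp X, (∀ x ∈ F, q.1 x = q'.1 x) → q ∈ O → q' ∈ O) {q : Cp X} (hq : q ∈ O) :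
    ∃ s : Finset (F × ℚ × ℚ), q ∈ Win F s ∧ Win F s ⊆ O := by
  classical
  obtain ⟨I, δ, hδ, hI⟩ := cp_nbhd hO hq
  have hlo : ∀ x : F, ∃ a : ℚ, q.1 x - δ < a ∧ (a : ℝ) < q.1 x :=
    fun x => exists_rat_btwn (by linarith)
  have hhi : ∀ x : F, ∃ a : ℚ, q.1 x < a ∧ (a : ℝ) < q.1 x + δ :=
    fun x => exists_rat_btwn (by linarith)
  choose a ha1 ha2 using hlo
  choose b hb1 hb2 using hhi
  let IF : Finset F := I.subtype (· ∈ F)
  refine ⟨IF.image fun x => (x, a x, b x), ?_, ?_⟩
  · intro e he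
    obtain ⟨x, _, rfl⟩ := Finset.mem_image.mp he
    exact ⟨ha2 x, hb1 x⟩
  · intro q' hq'
    -- modify `q'` off `F`
    obtain ⟨l, hl, _, _, hlF, hlI⟩ := exists_bump F hF (I.filter (· ∉ F))
      (fun x hx => (Finset.mem_filter.mp hx).2)
    let q'' : Cp X := ⟨fun x => q'.1 x + l x * (q.1 x - q'.1 x),
      q'.2.add (hl.mul (q.2.sub q'.2))⟩
    have h1 : q'' ∈ O := by
      apply hI
      intro x hx
      by_cases hxF : x ∈ F
      · have h2 : q''.1 x = q'.1 x := by
          show q'.1 x + l x * (q.1 x - q'.1 x) = q'.1 x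
          rw [hlF x hxF, zero_mul, add_zero]
        have h3 : ((⟨x, hxF⟩ : F), a ⟨x, hxF⟩, b ⟨x, hxF⟩) ∈
            IF.image fun x => (x, a x, b x) := by
          refine Finset.mem_image.mpr ⟨⟨x, hxF⟩, ?_, rfl⟩
          rw [Finset.mem_subtype]
          exact hx
        have h4 := hq' _ h3
        have h5 := ha1 ⟨x, hxF⟩
        have h6 := hb2 ⟨x, hxF⟩
        rw [h2, abs_lt]
        simp only at h4 h5 h6
        constructor <;> linarith [h4.1, h4.2]
      · have h2 : q''.1 x = q.1 x := by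
          show q'.1 x + l x * (q.1 x - q'.1 x) = q.1 x
          rw [hlI x (Finset.mem_filter.mpr ⟨hx, hxF⟩)]
          ring
        rw [h2, sub_self, abs_zero]
        exact hδ
    refine hsat q'' q' (fun x hx => ?_) h1
    show q'.1 x + l x * (q.1 x - q'.1 x) = q'.1 x
    rw [hlF x hx, zero_mul, add_zero]

end Windows

section Network

variable {X Y : Type u} [TopologicalSpace X] [TopologicalSpace Y]

/-- Network-type data. -/
def Fits (F : Set X) (τ : Finset (Finset (F × ℚ × ℚ) × ℚ × ℚ)) (v : Cp (Cp X)) : Prop :=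
  ∀ e ∈ τ, ∀ q ∈ Win F e.1, (e.2.1 : ℝ) < v.1 q ∧ v.1 q < (e.2.2 : ℝ)

lemma exists_data [T35Space X] {F : Set X} (hF : IsClosed F) (V : Y → Cp (Cp X))
    (hV : IsInducing V) (x : Y)
    (hdep : ∀ q q' : Cp X, (∀ a ∈ F, q.1 a = q'.1 a) → (V x).1 q = (V x).1 q')
    (O : Set Y) (hO : IsOpen O) (hx : x ∈ O) :
    ∃ τ : Finset (Finset (F × ℚ × ℚ) × ℚ × ℚ), Fits F τ (V x) ∧
      ∀ x' : Y, Fits F τ (V x') → x' ∈ O := by
  classical
  obtain ⟨O', hO', rfl⟩ := hV.isOpen_iff.mp hO
  obtain ⟨I, δ, hδ, hI⟩ := cp_nbhd hO' hx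
  have hlo : ∀ q : Cp X, ∃ a : ℚ, (V x).1 q - δ / 2 < a ∧ (a : ℝ) < (V x).1 q :=
    fun q => exists_rat_btwn (by linarith)
  have hhi : ∀ q : Cp X, ∃ a : ℚ, (V x).1 q < a ∧ (a : ℝ) < (V x).1 q + δ / 2 :=
    fun q => exists_rat_btwn (by linarith)
  choose a ha1 ha2 using hlo
  choose b hb1 hb2 using hhi
  have hs : ∀ q : Cp X, ∃ s : Finset (F × ℚ × ℚ), q ∈ Win F s ∧
      Win F s ⊆ {q' | (a q : ℝ) < (V x).1 q' ∧ (V x).1 q' < b q} := by
    intro q
    apply exists_win hF
    · exact (isOpen_lt continuous_const (V x).2).inter (isOpen_lt (V x).2 continuous_const)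
    · intro q₁ q₂ h12 h
      have := hdep q₁ q₂ h12
      simp only [Set.mem_ofPred_eq] at h ⊢
      rw [← this]
      exact h
    · exact ⟨ha2 q, hb1 q⟩
  choose s hs1 hs2 using hs
  refine ⟨I.image fun q => (s q, a q, b q), ?_, ?_⟩
  · intro e he q' hq'
    obtain ⟨q, _, rfl⟩ := Finset.mem_image.mp he
    exact hs2 q hq'
  · intro x' hx'
    apply hI
    intro q hq
    have h1 := hx' (s q, a q, b q) (Finset.mem_image.mpr ⟨q, hq, rfl⟩) q (hs1 q)
    have h2 := ha1 q
    have h3 := hb2 q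
    simp only at h1
    rw [abs_lt]
    constructor <;> linarith [h1.1, h1.2]

end Network

section Final

variable {X Y : Type u} [TopologicalSpace X] [T35Space X] [TopologicalSpace Y] [T35Space Y]

/-- Evaluation at a point. -/
def ev (x : Y) : Cp (Cp Y) := ⟨fun y => y.1 x, (continuous_apply x).comp continuous_subtype_val⟩

lemma isInducing_ev : IsInducing (ev : Y → Cp (Cp Y)) := by
  refine ⟨le_antisymm ?_ ?_⟩
  · rw [← continuous_iff_le_induced]
    refine Continuous.subtype_mk (continuous_pi fun y => ?_) _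
    exact y.2
  · -- every open set is a neighbourhood of its points in the induced topology
    intro O hO
    have key : ∀ x ∈ O, ∃ G : Set (Cp (Cp Y)), IsOpen G ∧ ev x ∈ G ∧ ev ⁻¹' G ⊆ O := by
      intro x hx
      obtain ⟨l, hl, _, _, hlO, hlx⟩ := exists_bump Oᶜ hO.isClosed_compl {x}
        (fun y hy h => h (by rw [Finset.mem_singleton.mp hy]; exact hx))
      refine ⟨{u | (0 : ℝ) < u.1 ⟨l, hl⟩}, ?_, ?_, ?_⟩
      · exact isOpen_lt continuous_const
          ((continuous_apply (⟨l, hl⟩ : Cp Y)).comp continuous_subtype_val)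
      · show (0 : ℝ) < l x
        rw [hlx x (Finset.mem_singleton_self x)]
        exact one_pos
      · intro x' (hx' : (0 : ℝ) < l x')
        by_contra hcon
        rw [hlO x' hcon] at hx'
        exact lt_irrefl _ hx'
    choose! G hG1 hG2 hG3 using key
    refine isOpen_induced_iff.mpr ⟨⋃ x ∈ O, G x, isOpen_biUnion fun x hx => hG1 x hx, ?_⟩
    ext x'
    constructor
    · intro hx'
      obtain ⟨x, hx, h⟩ := Set.mem_iUnion₂.mp hx'
      exact hG3 x hx h
    · intro hx'
      exact Set.mem_iUnion₂.mpr ⟨x', hx', hG2 x' hx'⟩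

/-- The zero function. -/
def zero (X : Type u) [TopologicalSpace X] : Cp (Cp X) := ⟨fun _ => 0, continuous_const⟩

/-- **Main theorem**, for a retraction `h` with section `g` which preserves the zero function. -/
theorem main0 {κ μ : Cardinal.{u}} (hκ : ℵ₀ ≤ κ) (hμ : ℵ₀ ≤ μ)
    (hX : ∀ A : Set X, #A ≤ κ → #(closure A) ≤ μ) (h : Cp (Cp X) → Cp (Cp Y))
    (g : Cp (Cp Y) → Cp (Cp X)) (hh : Continuous h) (hg : Continuous g)
    (hgh : ∀ v, h (g v) = v) (hz0 : g (h (zero X)) = zero X)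
    (A : Set Y) (hA : #A ≤ κ) : #(closure A) ≤ μ := by
  classical
  let z : Cp (Cp X) := zero X
  let T : Cp (Cp X) → Cp Y → ℝ := fun f y => (h f).1 y - (h z).1 y
  have hTc : ∀ f, Continuous (T f) := fun f => (h f).2.sub (h z).2
  have hT : ∀ y, Continuous fun f => T f y := fun y =>
    ((continuous_apply y).comp (continuous_subtype_val.comp hh)).sub continuous_const
  obtain ⟨c, k, y₀, ε, hc, hε, hmin, hball⟩ := baire_step hTc hT z (fun _ => rfl)
    (fun y => sub_self _)
  -- the test functions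
  let t : ℝ := 2 / ε
  have ht : t * ε = 2 := div_mul_cancel₀ _ hε.ne'
  let w : Y × Y → Cp (Cp Y) := fun x => ⟨fun y => (h z).1 y + t * (y.1 x.1 - y.1 x.2),
    (h z).2.add (continuous_const.mul ((ev x.1).2.sub (ev x.2).2))⟩
  have hw : Continuous w := by
    refine Continuous.subtype_mk (continuous_pi fun y => ?_) _
    exact continuous_const.add (continuous_const.mul
      ((y.2.comp continuous_fst).sub (y.2.comp continuous_snd)))
  let u : Y × Y → Cp (Cp X) := fun x => g (w x)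
  have hu : Continuous u := hg.comp hw
  have hTu : ∀ x y, T (u x) y = t * (y.1 x.1 - y.1 x.2) := by
    intro x y
    show (h (g (w x))).1 y - (h z).1 y = _
    rw [hgh]
    show (h z).1 y + t * (y.1 x.1 - y.1 x.2) - (h z).1 y = _
    ring
  have hudiag : ∀ x, u (x, x) = z := by
    intro x
    have : w (x, x) = h z := by
      apply Subtype.ext
      funext y
      show (h z).1 y + t * (y.1 x - y.1 x) = (h z).1 y
      ring
    show g (w (x, x)) = z
    rw [this]
    exact hz0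
  let v : Y → Cp (Cp X) := fun x => g (ev x)
  have hgi : IsInducing g :=
    (Function.LeftInverse.isEmbedding (f := h) (g := g) hgh hh hg).isInducing
  have hv : IsInducing v := hgi.comp isInducing_ev
  -- the countable sets of coordinates
  choose B hB1 hB2 using (fun d : Cp (Cp X) => exists_countable_dep d)
  have hBκ : ∀ d, #(B d) ≤ κ := fun d => ((hB1 d).le_aleph0).trans hκ
  let BB : Set X := (⋃ p : A × A, B (u (p.1, p.2))) ∪ ⋃ a : A, B (v a)
  have hBB : #BB ≤ κ := by
    refine (mk_union_le _ _).trans ?_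
    have h1 : #(⋃ p : A × A, B (u (p.1, p.2)) : Set X) ≤ κ := by
      apply card_iUnion_le hκ _ _ (fun p => hBκ _)
      have h3 : #(A × A) = #A * #A := by simp
      rw [h3]
      exact (mul_le_mul' hA hA).trans (mul_eq_self hκ).le
    have h2 : #(⋃ a : A, B (v a) : Set X) ≤ κ := card_iUnion_le hκ _ hA (fun a => hBκ _)
    exact (add_le_add h1 h2).trans (add_eq_self hκ).le
  let F : Set X := closure BB
  have hF : IsClosed F := isClosed_closure
  have hFμ : #F ≤ μ := hX BB hBB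
  have hudep : ∀ x ∈ closure A, ∀ x' ∈ closure A, ∀ q q' : Cp X, (∀ a ∈ F, q.1 a = q'.1 a) →
      (u (x, x')).1 q = (u (x, x')).1 q' := by
    intro x hx x' hx' q q' hqq
    have hcl : IsClosed {p : Y × Y | (u p).1 q = (u p).1 q'} := by
      apply isClosed_eq
      · exact (continuous_apply q).comp (continuous_subtype_val.comp hu)
      · exact (continuous_apply q').comp (continuous_subtype_val.comp hu)
    have hsub : A ×ˢ A ⊆ {p : Y × Y | (u p).1 q = (u p).1 q'} := by
      rintro ⟨a, b⟩ ⟨ha, hb⟩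
      apply hB2
      intro x hx
      apply hqq
      apply subset_closure
      exact Or.inl (Set.mem_iUnion.mpr ⟨(⟨a, ha⟩, ⟨b, hb⟩), hx⟩)
    have hmem : (x, x') ∈ closure (A ×ˢ A) := by
      rw [closure_prod_eq]; exact ⟨hx, hx'⟩
    exact (closure_minimal hsub hcl) hmem
  have hvdep : ∀ x ∈ closure A, ∀ q q' : Cp X, (∀ a ∈ F, q.1 a = q'.1 a) →
      (v x).1 q = (v x).1 q' := by
    intro x hx q q' hqq
    have hcl : IsClosed {p : Y | (v p).1 q = (v p).1 q'} := by
      apply isClosed_eq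
      · exact (continuous_apply q).comp (continuous_subtype_val.comp hv.continuous)
      · exact (continuous_apply q').comp (continuous_subtype_val.comp hv.continuous)
    have hsub : A ⊆ {p : Y | (v p).1 q = (v p).1 q'} := by
      intro a ha
      apply hB2
      intro x hx
      apply hqq
      apply subset_closure
      exact Or.inr (Set.mem_iUnion.mpr ⟨⟨a, ha⟩, hx⟩)
    exact (closure_minimal hsub hcl) hx
  -- the finite set of all points in minimal supports of `y₀`
  have hfin := finite_supports hT hc (toCp y₀) k hmin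
  let K : Finset (Cp X) := hfin.toFinset.biUnion id
  have hK : ∀ G : Finset (Cp X), G.card ≤ k → Supp T c G (toCp y₀) → ∀ p ∈ G, p ∈ K := by
    intro G h1 h2 p hp
    exact Finset.mem_biUnion.mpr ⟨G, hfin.mem_toFinset.mpr ⟨h1, h2⟩, hp⟩
  -- neighbourhoods of `K` and the corresponding finite subsets of `Y`
  let WW : Finset (Finset (F × ℚ × ℚ)) → Set (Cp X) := fun σ => ⋃ s ∈ σ, Win F s
  have hP : ∀ σ : Finset (Finset (F × ℚ × ℚ)), ∃ P : Finset Y, (∀ p ∈ K, p ∈ WW σ) →
      ∀ y : Cp Y, (∀ a ∈ P, y.1 a = y₀ a) → ∀ G : Finset (Cp X), G.card ≤ k → Supp T c G y →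
        ∀ p ∈ G, p ∈ WW σ := by
    intro σ
    by_cases hσ : ∀ p ∈ K, p ∈ WW σ
    · have hopen : IsOpen (WW σ) := isOpen_biUnion fun s _ => isOpen_win F s
      have h1 := usc_supports hTc hT hc (toCp y₀) k hmin (WW σ) hopen
        (fun G hG1 hG2 p hp => hσ p (hK G hG1 hG2 p hp))
      obtain ⟨O, hO1, hO2, hO3⟩ := mem_nhds_iff.mp h1
      obtain ⟨P, δ, hδ, hP⟩ := cp_nbhd hO2 hO3
      refine ⟨P, fun _ y hy => hO1 (hP y fun a ha => ?_)⟩
      show |y.1 a - y₀ a| < δ
      rw [hy a ha, sub_self, abs_zero]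
      exact hδ
    · exact ⟨∅, fun h => (hσ h).elim⟩
  choose P hP using hP
  -- cardinality
  by_contra hcard
  rw [not_le] at hcard
  have hdata : #(Finset (Finset (F × ℚ × ℚ))) ≤ μ :=
    card_finset_le hμ (card_finset_le hμ (card_prod_rat_le hμ hFμ))
  have hPP : #(⋃ σ, (P σ : Set Y)) ≤ μ :=
    card_iUnion_le hμ _ hdata (fun σ => ((P σ).countable_toSet.le_aleph0).trans hμ)
  let S : Set Y := closure A \ ⋃ σ, (P σ : Set Y)
  have hS : μ < #S := by
    by_contra hcon
    rw [not_lt] at hcon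
    have h1 : closure A ⊆ S ∪ ⋃ σ, (P σ : Set Y) := by
      intro x hx
      by_cases hxP : x ∈ ⋃ σ, (P σ : Set Y)
      · exact Or.inr hxP
      · exact Or.inl ⟨hx, hxP⟩
    have h2 := (mk_le_mk_of_subset h1).trans (mk_union_le _ _)
    have h3 := h2.trans (add_le_add hcon hPP)
    rw [add_eq_self hμ] at h3
    exact absurd h3 (not_le.mpr hcard)
  -- pigeonhole
  have hO : ∀ x : Y, IsOpen {x' : Y | ∀ p ∈ K, |(u (x', x)).1 p| < c} := by
    intro x
    have : {x' : Y | ∀ p ∈ K, |(u (x', x)).1 p| < c} =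
        ⋂ p ∈ K, {x' : Y | |(u (x', x)).1 p| < c} := by
      ext x'; simp
    rw [this]
    refine isOpen_biInter_finset fun p _ => ?_
    refine isOpen_lt ?_ continuous_const
    exact ((continuous_apply p).comp (continuous_subtype_val.comp
      (hu.comp (continuous_id.prodMk continuous_const)))).abs
  have hτ : ∀ x : S, ∃ τ : Finset (Finset (F × ℚ × ℚ) × ℚ × ℚ), Fits F τ (v x) ∧
      ∀ x' : Y, Fits F τ (v x') → ∀ p ∈ K, |(u (x', x.1)).1 p| < c := by
    intro x
    apply exists_data hF v hv x.1 (hvdep x.1 x.2.1) _ (hO x.1)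
    intro p _
    rw [hudiag]
    show |(0 : ℝ)| < c
    rw [abs_zero]; exact hc
  choose τ hτ1 hτ2 using hτ
  have hdata2 : #(Finset (Finset (F × ℚ × ℚ) × ℚ × ℚ)) ≤ μ :=
    card_finset_le hμ (card_prod_rat_le hμ (card_finset_le hμ (card_prod_rat_le hμ hFμ)))
  have hninj : ¬ Function.Injective τ := by
    intro hinj
    exact absurd ((mk_le_of_injective hinj).trans hdata2) (not_le.mpr hS)
  rw [Function.not_injective_iff] at hninj
  obtain ⟨x, x', hxx, hne⟩ := hninj
  have hne' : x.1 ≠ x'.1 := fun h => hne (Subtype.ext h)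
  have hsmall : ∀ p ∈ K, |(u (x'.1, x.1)).1 p| < c := by
    apply hτ2 x x'.1
    rw [hxx]
    exact hτ1 x'
  -- a small window
  have hs : ∀ p : Cp X, ∃ s : Finset (F × ℚ × ℚ), p ∈ K → (p ∈ Win F s ∧
      Win F s ⊆ {q | |(u (x'.1, x.1)).1 q| < c}) := by
    intro p
    by_cases hp : p ∈ K
    · obtain ⟨s, hs1, hs2⟩ := exists_win hF (O := {q : Cp X | |(u (x'.1, x.1)).1 q| < c})
        (isOpen_lt (u (x'.1, x.1)).2.abs continuous_const) (by
          intro q q' hqq hq
          have := hudep x'.1 x'.2.1 x.1 x.2.1 q q' hqq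
          simp only [Set.mem_ofPred_eq] at hq ⊢
          rw [← this]; exact hq) (hsmall p hp)
      exact ⟨s, fun _ => ⟨hs1, hs2⟩⟩
    · exact ⟨∅, fun h => (hp h).elim⟩
  choose s hs using hs
  let σ : Finset (Finset (F × ℚ × ℚ)) := K.image s
  have hσK : ∀ p ∈ K, p ∈ WW σ := by
    intro p hp
    exact Set.mem_iUnion₂.mpr ⟨s p, Finset.mem_image_of_mem s hp, (hs p hp).1⟩
  have hσ : ∀ q ∈ WW σ, |(u (x'.1, x.1)).1 q| < c := by
    intro q hq
    obtain ⟨s', hs', hqs⟩ := Set.mem_iUnion₂.mp hq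
    obtain ⟨p, hp, rfl⟩ := Finset.mem_image.mp hs'
    exact (hs p hp).2 hqs
  -- perturb `y₀`
  have hxP : x.1 ∉ P σ := fun h => x.2.2 (Set.mem_iUnion.mpr ⟨σ, h⟩)
  have hx'P : x'.1 ∉ P σ := fun h => x'.2.2 (Set.mem_iUnion.mpr ⟨σ, h⟩)
  obtain ⟨l, hl, hl0, hl1, hlF, hlx⟩ := exists_bump ((insert x.1 (P σ) : Finset Y) : Set Y)
    (Finset.finite_toSet _).isClosed {x'.1} (by
      intro y hy
      rw [Finset.mem_singleton.mp hy, Finset.mem_coe, Finset.mem_insert]
      rintro (h | h)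
      · exact hne' h.symm
      · exact hx'P h)
  let L : Y →ᵇ ℝ := BoundedContinuousFunction.ofNormedAddCommGroup l hl 1 (by
    intro y
    rw [Real.norm_eq_abs, abs_of_nonneg (hl0 y)]
    exact hl1 y)
  have hL : ‖L‖ ≤ 1 := BoundedContinuousFunction.norm_ofNormedAddCommGroup_le _ zero_le_one _
  have hlx0 : l x.1 = 0 := hlF x.1 (by rw [Finset.mem_coe]; exact Finset.mem_insert_self _ _)
  have hlx1 : l x'.1 = 1 := hlx x'.1 (Finset.mem_singleton_self _)
  have key : ∀ r : ℝ, |r| ≤ ε → |t * (y₀ x'.1 + r - y₀ x.1)| ≤ 1 := by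
    intro r hr
    let y : Y →ᵇ ℝ := y₀ + r • L
    have hy : ∀ a, y a = y₀ a + r * l a := fun a => rfl
    have hdist : dist y y₀ ≤ ε := by
      rw [dist_eq_norm]
      have : y - y₀ = r • L := by simp [y]
      rw [this, norm_smul, Real.norm_eq_abs]
      calc |r| * ‖L‖ ≤ |r| * 1 := mul_le_mul_of_nonneg_left hL (abs_nonneg r)
        _ ≤ ε := by rw [mul_one]; exact hr
    obtain ⟨G, hG1, hG2⟩ := hball y hdist
    have hG3 : ∀ p ∈ G, p ∈ WW σ := by
      apply hP σ hσK (toCp y) _ G hG1 hG2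
      intro a ha
      show y a = y₀ a
      rw [hy, hlF a (by
        rw [Finset.mem_coe]; exact Finset.mem_insert_of_mem ha), mul_zero, add_zero]
    have hG4 := hG2 (u (x'.1, x.1)) (fun p hp => hσ p (hG3 p hp))
    rw [hTu] at hG4
    have h5 : (toCp y).1 x'.1 = y₀ x'.1 + r := by
      show y x'.1 = _
      rw [hy, hlx1, mul_one]
    have h6 : (toCp y).1 x.1 = y₀ x.1 := by
      show y x.1 = _
      rw [hy, hlx0, mul_zero, add_zero]
    simp only [h5, h6] at hG4
    exact hG4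
  have h1 := abs_le.mp (key ε (abs_of_pos hε).le)
  have h2 := abs_le.mp (key (-ε) (by rw [abs_neg]; exact (abs_of_pos hε).le))
  have h3 : t * (y₀ x'.1 + ε - y₀ x.1) - t * (y₀ x'.1 + -ε - y₀ x.1) = 2 * (t * ε) := by ring
  rw [ht] at h3
  linarith [h1.2, h2.1]

/-- **Main theorem**: `C_p C_p (Y)` is homeomorphic to a retract of `C_p C_p (X)`. -/
theorem main {κ μ : Cardinal.{u}} (hκ : ℵ₀ ≤ κ) (hμ : ℵ₀ ≤ μ)
    (hX : ∀ A : Set X, #A ≤ κ → #(closure A) ≤ μ) (h : Cp (Cp X) → Cp (Cp Y))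
    (g : Cp (Cp Y) → Cp (Cp X)) (hh : Continuous h) (hg : Continuous g)
    (hgh : ∀ v, h (g v) = v) (A : Set Y) (hA : #A ≤ κ) : #(closure A) ≤ μ := by
  let a : Cp (Cp X) := g (h (zero X))
  have ha : h a = h (zero X) := hgh _
  let h' : Cp (Cp X) → Cp (Cp Y) := fun f => h ⟨fun q => f.1 q + a.1 q, f.2.add a.2⟩
  let g' : Cp (Cp Y) → Cp (Cp X) := fun v => ⟨fun q => (g v).1 q - a.1 q, (g v).2.sub a.2⟩
  have hh' : Continuous h' := by
    refine hh.comp (Continuous.subtype_mk (continuous_pi fun q => ?_) _)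
    exact ((continuous_apply q).comp continuous_subtype_val).add continuous_const
  have hg' : Continuous g' := by
    refine Continuous.subtype_mk (continuous_pi fun q => ?_) _
    exact ((continuous_apply q).comp (continuous_subtype_val.comp hg)).sub continuous_const
  have e1 : ∀ v, h' (g' v) = v := by
    intro v
    have e2 : (⟨fun q => (g' v).1 q + a.1 q, (g' v).2.add a.2⟩ : Cp (Cp X)) = g v := by
      apply Subtype.ext
      funext q
      show (g v).1 q - a.1 q + a.1 q = (g v).1 q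
      ring
    show h ⟨fun q => (g' v).1 q + a.1 q, (g' v).2.add a.2⟩ = v
    rw [e2, hgh]
  have e3 : g' (h' (zero X)) = zero X := by
    have e4 : (⟨fun q => (zero X).1 q + a.1 q, (zero X).2.add a.2⟩ : Cp (Cp X)) = a := by
      apply Subtype.ext
      funext q
      show (0 : ℝ) + a.1 q = a.1 q
      ring
    have e5 : h' (zero X) = h (zero X) := by
      show h ⟨fun q => (zero X).1 q + a.1 q, (zero X).2.add a.2⟩ = _
      rw [e4, ha]
    rw [e5]
    apply Subtype.ext
    funext q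
    show a.1 q - a.1 q = 0
    ring
  exact main0 hκ hμ hX h' g' hh' hg' e1 e3 A hA

end Final

end Pool.Agent.MP_10e961_gt_own
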